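import Mathlib
import Pool.Agent.E8helper20.CT3.T3
import Pool.Agent.E8helper20.CT3.Pr
import Pool.Agent.E8helper25.CT3.Fin

/-!
# The 3-part of the leading-term formula over `ℚ` for the curves `y² + 3 D y = x³`

`D > 1` is cube-free and all its prime factors are `1` modulo `3` (any number of them); the curve
`E : y² + 3 D y = x³` is `3`-isogenous to `x³ + y³ = 3 D`. Then `E` is a minimal equation, `L(E, s)`
is entire, `u = L(E, 1) |E(ℚ)_tors|² / (Ω ∏ c_p)` is integral at `3`, and it is a unit at `3` if and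
only if `E(ℚ)` is finite and `Ш(E/ℚ)[3^∞] = 0`, if and only if `3 D` does not split as `d₀ d₁ d₂`
(criterion with cubic residues); this holds for exactly the proportion
`∏_{i ≥ 1} (1 - 3^{-i}) = 0.5601...` of the squarefree `D`.

Joint work of helper20 (analysis at level nine, assembly), helper47 (minimality, Tamagawa numbers,
criterion), helper2 (supplementary law, `L`-function), helper87 (the prime three), helper23
(Selmer group), helper85 (converse, descent), helper25 (exact proportion), on top of the files of the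
run before.
-/

set_option autoImplicit false

open scoped Classical

namespace Pool.Agent.Results.MP_92892c_nt.ThreePartThreeTwistsH20

open Pool.Agent.Y703.CT
open Pool.Agent.W97.MT (IsGloballyMinimal)
open Pool.Agent.Y700 (Omega)
open Pool.Agent.E8helper20.CT3 (ClsT)

theorem result :
    (∀ D : ℕ, ClsT D → IsGloballyMinimal (WD ((3 * D : ℕ) : ℤ)) ∧
      ∃ f : ℂ → ℂ, IsL (WD ((3 * D : ℕ) : ℤ)) f ∧ ∃ u : ℂ,
        f 1 = u * (((Omega (WD ((3 * D : ℕ) : ℤ)) : ℝ) : ℂ) *
          (tamProd (WD ((3 * D : ℕ) : ℤ)) : ℂ) / (tors (3 * D) : ℂ) ^ 2) ∧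
        ThreeInt u ∧ (ThreeUnit u ↔ Triv3 (3 * D)) ∧ (Triv3 (3 * D) ↔ NoSplit (3 * D))) ∧
    (∀ p : ℕ, p.Prime → p % 3 = 1 → (NoSplit (3 * p) ↔ ¬ ∃ x : ℤ, (p : ℤ) ∣ 3 - x ^ 3)) ∧
    Filter.Tendsto (fun X : ℕ =>
        (((Finset.Icc 1 X).filter fun D => Squarefree D ∧ ClsT D ∧ Triv3 (3 * D)).card : ℝ) /
        (((Finset.Icc 1 X).filter fun D => Squarefree D ∧ ClsT D).card : ℝ)) Filter.atTop
      (nhds (∏' i : ℕ, (1 - (1 / 3 : ℝ) ^ (i + 1)))) := by
  refine ⟨fun _ hC => Pool.Agent.E8helper20.CT3.T3.fin_all hC,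
    fun _ hp h1 => Pool.Agent.E8helper20.CT3.noSplit_prime_iff hp h1, ?_⟩
  have h := Pool.Agent.E8helper25.CT3.t_DEN3
  unfold Pool.Agent.E8helper20.CT3.S_DEN3 Pool.Agent.Y703.CX.c3 at h
  have e : ∀ X : ℕ,
      (Finset.Icc 1 X).filter (fun D => Squarefree D ∧ ClsT D ∧ Triv3 (3 * D)) =
      (Finset.Icc 1 X).filter fun D => Squarefree D ∧ ClsT D ∧ NoSplit (3 * D) := by
    intro X
    refine Finset.filter_congr fun D _ => ?_
    refine and_congr_right fun _ => and_congr_right fun hC => ?_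
    obtain ⟨-, f, -, u, -, -, -, h2⟩ := Pool.Agent.E8helper20.CT3.T3.fin_all hC
    exact h2
  simp only [e]
  exact h

end Pool.Agent.Results.MP_92892c_nt.ThreePartThreeTwistsH20
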