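import Pool.Agent.E8helper21.QT.Fin
import Pool.Agent.E8helper18.QP.Tr

/-!
# The 2-part of the leading-term formula over `ℚ` for quartic twists of `y² = x³ - x`

`E_D : y² = x³ - D x`, where `D ≥ 1` is squarefree, `D ≡ 13` modulo `16`, and all prime factors of `D`
are `1` modulo `4`; there is no restriction on their number. Let
`z = (L(E_D, 1) / Ω) / (∏ c_p / #E_D(ℚ)_tors²)`, the quotient of the analytic constant in rank zero by
the algebraic one without `#Ш(E_D/ℚ)`. With no hypothesis on the rank or on `Ш` we prove for all these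
`D`:
* the equation is a global minimal one, `L(E_D, s)` is entire, `∏ c_p = 2^(n + 1)`, `n` the number of the
  prime factors of `D`, and the order of the torsion group is twice an odd number;
* `z` is integral at all the primes above two, and `z` is a unit at any given prime above two if and only
  if `E_D(ℚ)` is finite and `Ш(E_D/ℚ)[2] = 0`: the formula modulo two;
* this is the case if and only if `D` has no nontrivial decomposition of the second kind in the sense of
  Rédei: `D = d e`, `d` a square modulo all the prime factors of `e` and conversely;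
* in this case the 2-part of the formula holds: `L(E_D, 1) ≠ 0`, `E_D(ℚ)` is finite,
  `Ш(E_D/ℚ)[2^∞] = 0` and `z`, `1 / z` are integral at the primes above two;
* the proportion of these `D` among all the `D ≤ X` of the class tends to
  `∏_{i ≥ 0} (1 - 2^(-(2i+1))) = 0.4194…` as `X → ∞`, and there are at least `a X / √(log X)` of them,
  for some `a > 0` and all large `X`.

Proof: the central value is the limit of a sum over the residues of a quartic Hecke character with
values in an Eisenstein series of weight one (`QT/Phi`, `QT/Tr`, `QT/Lim`); the sum over the Gaussian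
divisors of `D` of the values at the conductors, a quadratic twist of the duplication of the
Weierstrass function included, gives a recursion whose solution modulo the prime above two is a sum of
determinants of quadratic residue symbols in `ℤ[i]` (`QT/Rec`, `QT/Cong`, `QT/Cong2`). For rational `D`
the weight is even, so that the leading term of the odd case cancels, and the next one is a
sum over the pairs of conjugate prime factors of a minor of the Laplacian for the symbols between the
rational prime factors (`QT/Jg`, `QT/Fam`, `QT/Gr`). The other side is a descent by the two isogenies of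
degree two and explicit classes in `Ш[2]` (`QT/Sels`, `QT/Sel1`, `QT/Conv`). The count is by helper18
(`Pool.Agent.E8helper18.QP`): the `D` are divided according to their small prime factors and to short
intervals and classes modulo `16` for the large ones; by a bilinear estimate the symbols between the large
prime factors are equidistributed in almost all these boxes (starting files `R413.SQ`), a random symmetric
completion has the required kernel with probability close to `0.4194…` if the symbols of the small primes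
against all large primes but one are linearly independent, and few `D` are in degenerate position.
-/

set_option autoImplicit false

open WeierstrassCurve MeasureTheory Filter Topology

namespace Pool.Agent.Results.MP_92892c_nt.TwoPartQuarticTwistsH21

open scoped Classical

open Pool.Agent.TH841.SH.D (Sha)

/-- `E_D : y² = x³ - D x` -/
def curve (D : ℕ) : WeierstrassCurve ℤ := ⟨0, 0, 0, -(D : ℤ), 0⟩

/-- The class: `D` is squarefree, `D ≡ 13` modulo `16`, and all its prime factors are `1` modulo `4`. -/
def Class (D : ℕ) : Prop := Squarefree D ∧ D % 16 = 13 ∧ ∀ p : ℕ, p.Prime → p ∣ D → p % 4 = 1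

/-- The curve given by the equation of `W` over the ring `R`. -/
abbrev base (W : WeierstrassCurve ℤ) (R : Type) [CommRing R] : WeierstrassCurve R :=
  W.map (Int.castRingHom R)

/-- `W` is a global minimal equation: `Δ ≠ 0` and `|Δ|` is minimal among the integral equations of the
same curve over `ℚ`. -/
def Minimal (W : WeierstrassCurve ℤ) : Prop :=
  W.Δ ≠ 0 ∧ ∀ (W' : WeierstrassCurve ℤ) (C : VariableChange ℚ), C • base W ℚ = base W' ℚ →
    |W.Δ| ≤ |W'.Δ|

/-- The number of the affine points modulo `p`. -/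
noncomputable def pts (W : WeierstrassCurve ℤ) (p : ℕ) : ℕ :=
  Nat.card {P : ZMod p × ZMod p // (base W (ZMod p)).toAffine.Equation P.1 P.2}

/-- `a_p = p + 1 - #W(𝔽_p)`, the points counted with the point at infinity. -/
noncomputable def a (W : WeierstrassCurve ℤ) (p : ℕ) : ℤ := p - pts W p

/-- `L` is the L-function of the minimal equation `W`: it is entire, and for `Re s > 3/2` it is given by
the Euler product with the factors `(1 - a_p p^(-s) + p^(1 - 2 s))⁻¹` if `p` does not divide `Δ` and
`(1 - a_p p^(-s))⁻¹` otherwise. -/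
def IsL (W : WeierstrassCurve ℤ) (L : ℂ → ℂ) : Prop :=
  Differentiable ℂ L ∧ ∀ s : ℂ, 3 / 2 < s.re →
    HasProd (fun p : Nat.Primes => (1 - (a W p : ℂ) * ((p : ℕ) : ℂ) ^ (-s) +
      (if ((p : ℕ) : ℤ) ∣ W.Δ then 0 else ((p : ℕ) : ℂ) ^ (1 - 2 * s)))⁻¹) (L s)

/-- The point `P` of `W` over `ℚ_p` reduces to a singular point of the curve modulo `p`: the coordinates
are integral and both partial derivatives of `y² + a₁ x y + a₃ y - x³ - a₂ x² - a₄ x - a₆` are in the
maximal ideal. -/
def SingularReduction (W : WeierstrassCurve ℤ) (p : ℕ) [Fact p.Prime]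
    (P : (base W ℚ_[p]).toAffine.Point) : Prop :=
  ∃ x y h, P = Affine.Point.some x y h ∧ ‖x‖ ≤ 1 ∧ ‖y‖ ≤ 1 ∧
    ‖W.a₁ * y - (3 * x ^ 2 + 2 * W.a₂ * x + W.a₄)‖ < 1 ∧ ‖2 * y + W.a₁ * x + W.a₃‖ < 1

/-- `c p` is the Tamagawa number `[W(ℚ_p) : W⁰(ℚ_p)]` for all primes `p`, where `W⁰(ℚ_p)` is the subgroup
of the points which do not have singular reduction; it is `1` if `p` does not divide `Δ`. -/
def IsTamagawa (W : WeierstrassCurve ℤ) (c : ℕ → ℕ) : Prop :=
  ∀ (p : ℕ) [Fact p.Prime], (∃ H : AddSubgroup (base W ℚ_[p]).toAffine.Point,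
    (∀ P, P ∈ H ↔ ¬ SingularReduction W p P) ∧ H.index = c p) ∧ (¬ (p : ℤ) ∣ W.Δ → c p = 1)

/-- The product of the Tamagawa numbers. -/
noncomputable def Tam (W : WeierstrassCurve ℤ) (c : ℕ → ℕ) : ℕ := ∏ p ∈ W.Δ.natAbs.primeFactors, c p

/-- `4 x³ + b₂ x² + 2 b₄ x + b₆ = (2 y + a₁ x + a₃)²`. -/
def cubic (W : WeierstrassCurve ℤ) (x : ℝ) : ℝ := 4 * x ^ 3 + W.b₂ * x ^ 2 + 2 * W.b₄ * x + W.b₆

/-- `Ω = ∫_{W(ℝ)} |ω|` with `ω = dx / (2 y + a₁ x + a₃)`, as an integral over `x`: two real points lie
over each `x` with `cubic x > 0`. -/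
noncomputable def Omega (W : WeierstrassCurve ℤ) : ℝ :=
  2 * ∫ x in {x : ℝ | 0 < cubic W x}, 1 / √(cubic W x)

/-- The order of the torsion subgroup of `W(ℚ)`. -/
noncomputable def torsOrder (W : WeierstrassCurve ℤ) : ℕ :=
  Nat.card (AddCommGroup.torsion (base W ℚ).toAffine.Point)

/-- The order of the Tate-Shafarevich group predicted by the formula in rank zero, for the value `l` of
the L-function at `s = 1` and the Tamagawa numbers `c`: `l #W(ℚ)_tors² / (Ω ∏ c_p)`. -/
noncomputable def anOrder (W : WeierstrassCurve ℤ) (l : ℂ) (c : ℕ → ℕ) : ℂ :=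
  l * (torsOrder W : ℂ) ^ 2 / ((Omega W : ℝ) * (Tam W c : ℂ))

/-- `z` is not zero, and `z` and `1 / z` are integral at all the primes above two: up to odd integers
they are algebraic integers. -/
def TwoUnit (z : ℂ) : Prop :=
  z ≠ 0 ∧ ∃ m : ℤ, Odd m ∧ IsIntegral ℤ ((m : ℂ) * z) ∧ IsIntegral ℤ ((m : ℂ) * z⁻¹)

/-- The 2-part of the leading-term formula for `W` over `ℚ`, in the case that the predicted order of `Ш`
is a unit at two: `W` is minimal, `L(W, s)` is entire, `L(W, 1) ≠ 0`, `W(ℚ)` is finite, the 2-primary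
part of `Ш(W/ℚ)` is zero, and the predicted order of `Ш` is a unit at the primes above two. -/
def TwoPart (W : WeierstrassCurve ℤ) : Prop :=
  Minimal W ∧ Finite (base W ℚ).toAffine.Point ∧
  (∀ (n : ℕ) (x : Sha (base W ℚ)), 2 ^ n • x = 0 → x = 0) ∧
  ∃ (L : ℂ → ℂ) (c : ℕ → ℕ), IsL W L ∧ L 1 ≠ 0 ∧ IsTamagawa W c ∧ 0 < Tam W c ∧
    0 < Omega W ∧ 0 < torsOrder W ∧ TwoUnit (anOrder W (L 1) c)

/-- `E_D(ℚ)` is finite and `Ш(E_D/ℚ)` has no element of order two. -/
def RankZeroShaTwo (D : ℕ) : Prop :=
  Finite (base (curve D) ℚ).toAffine.Point ∧ ∀ x : Sha (base (curve D) ℚ), 2 • x = 0 → x = 0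

/-- `D` has no nontrivial decomposition of the second kind: if `D = d e`, `d` is a square modulo all the
prime factors of `e` and `e` is a square modulo all the prime factors of `d`, then `d = 1` or `e = 1`. -/
def Indecomposable (D : ℕ) : Prop := ∀ d e : ℕ, D = d * e →
  (∀ p : ℕ, p.Prime → p ∣ e → IsSquare (d : ZMod p)) →
  (∀ p : ℕ, p.Prime → p ∣ d → IsSquare (e : ZMod p)) → d = 1 ∨ e = 1

/-- The statement for all `D` of the class: the equation is minimal, there are the entire L-function `L`
and the Tamagawa numbers `c`, `∏ c_p = 2^(n + 1)`, the order of the torsion group is twice an odd number,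
and for the predicted order `z` of `Ш` and every valuation `v` of `ℂ` above two `v z ≤ 1`, with equality
if and only if `E_D(ℚ)` is finite and `Ш(E_D/ℚ)[2] = 0`; this is the case if and only if `D` is
indecomposable, and if and only if the 2-part of the formula holds with `z` a unit. -/
def Criterion (D : ℕ) : Prop :=
  Minimal (curve D) ∧
  (∃ (L : ℂ → ℂ) (c : ℕ → ℕ), IsL (curve D) L ∧ IsTamagawa (curve D) c ∧
    Tam (curve D) c = 2 ^ (D.primeFactors.card + 1) ∧
    (∃ t : ℕ, Odd t ∧ torsOrder (curve D) = 2 * t) ∧ 0 < Omega (curve D) ∧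
    ∀ (Γ : Type) [LinearOrderedCommGroupWithZero Γ] (v : Valuation ℂ Γ), v 2 < 1 →
      v (anOrder (curve D) (L 1) c) ≤ 1 ∧
      (v (anOrder (curve D) (L 1) c) = 1 ↔ RankZeroShaTwo D)) ∧
  (RankZeroShaTwo D ↔ Indecomposable D) ∧
  (Indecomposable D ↔ TwoPart (curve D))

/-- The number of the `D ≤ X` of the class with the property `Q`. -/
noncomputable def num (Q : ℕ → Prop) (X : ℕ) : ℕ :=
  ((Finset.Icc 1 X).filter fun D => Class D ∧ Q D).card

/-- The constant `0.4194…`. -/
noncomputable def cc : ℝ := ∏' i : ℕ, (1 - (1 / 2 : ℝ) ^ (2 * i + 1))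

section proof

open Pool.Agent.E8helper21.QT (ClsD cv LL cls_pf mod_pf nD_pf Indec EQ')

lemma curve_eq (D : ℕ) : curve D = cv D := rfl

lemma class_iff (D : ℕ) : Class D ↔ ClsD D := Iff.rfl

lemma indec_iff (D : ℕ) : Indecomposable D ↔ Indec D := Iff.rfl

/-- the Tamagawa numbers -/
noncomputable def cT (W : WeierstrassCurve ℤ) (p : ℕ) : ℕ :=
  if h : p.Prime then (haveI := Fact.mk h; Pool.Agent.Y700.tam W p) else 1

lemma cT_eq (W : WeierstrassCurve ℤ) (p : ℕ) [hp : Fact p.Prime] :
    cT W p = Pool.Agent.Y700.tam W p := by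
  unfold cT
  rw [dif_pos hp.out]

lemma isTam (W : WeierstrassCurve ℤ) : IsTamagawa W (cT W) := by
  intro p hp
  refine ⟨⟨Pool.Agent.Y700.E0 W p, fun P => ?_, by rw [cT_eq]; rfl⟩, fun h => ?_⟩
  · rw [Pool.Agent.Y809.BSD14.t_E0 W p P]
    constructor
    · rintro h ⟨x, y, h1, rfl, h2⟩
      exact h x y h1 rfl h2
    · intro h x y h1 h2 h3
      exact h ⟨x, y, h1, h2, h3⟩
  · rw [cT_eq]
    exact Pool.Agent.Y809.BSD14.t_TGOOD W p h

lemma isL {D : ℕ} (h : Class D) : IsL (curve D) (LL (cls_pf h)) := by
  refine ⟨Pool.Agent.E8helper21.QT.LL_diff (cls_pf h) (mod_pf h), fun s hs => ?_⟩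
  have h1 := Pool.Agent.E8helper21.QT.euler (cls_pf h) (mod_pf h) hs
  rw [nD_pf h] at h1
  exact h1

lemma rz_iff {D : ℕ} (h : Class D) : RankZeroShaTwo D ↔ Indecomposable D :=
  Pool.Agent.E8helper21.QT.sel_iff h

theorem criterion {D : ℕ} (h : Class D) : Criterion D := by
  have hmin : Minimal (curve D) := by
    refine Pool.Agent.E8helper21.QT.min_cv (D := (D : ℤ)) (Int.squarefree_natCast.2 h.1) ?_
    have := h.2.1
    omega
  obtain ⟨A, hA, hint⟩ := Pool.Agent.E8helper21.QT.period h
  have hΩ : Omega (curve D) = 2 * A := by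
    unfold Omega
    congr 1
  obtain ⟨t, ht, htor⟩ := Pool.Agent.E8helper21.QT.tors h
  have htor' : torsOrder (curve D) = 2 * t := htor
  have htam : Tam (curve D) (cT (curve D)) = 2 ^ (D.primeFactors.card + 1) :=
    Pool.Agent.E8helper21.QT.tam_all h _ fun p _ => cT_eq _ p
  have hΩ0 : 0 < Omega (curve D) := by rw [hΩ]; linarith
  have hval : ∀ (Γ : Type) [LinearOrderedCommGroupWithZero Γ] (v : Valuation ℂ Γ), v 2 < 1 →
      v (anOrder (curve D) (LL (cls_pf h) 1) (cT (curve D))) ≤ 1 ∧
      (v (anOrder (curve D) (LL (cls_pf h) 1) (cT (curve D))) = 1 ↔ Indecomposable D) := by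
    intro Γ _ v hv
    have h1 := Pool.Agent.E8helper21.QT.value h hA hint ht v hv
    unfold anOrder
    rw [hΩ, htor', htam]
    exact h1
  refine ⟨hmin, ⟨LL (cls_pf h), cT (curve D), isL h, isTam _, htam, ⟨t, ht, htor'⟩, hΩ0,
    fun Γ _ v hv => ?_⟩, rz_iff h, fun hI => ?_, fun hT => ?_⟩
  · rw [rz_iff h]
    exact hval Γ v hv
  · obtain ⟨hf, hs⟩ := Pool.Agent.E8helper21.QT.alg_fin h hI
    have hz : ∀ B : ValuationSubring ℂ, B.valuation 2 < 1 →
        B.valuation (anOrder (curve D) (LL (cls_pf h) 1) (cT (curve D))) = 1 :=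
      fun B hB => ((hval _ B.valuation hB).2).2 hI
    set z := anOrder (curve D) (LL (cls_pf h) 1) (cT (curve D)) with hzd
    obtain ⟨B, hB⟩ := Pool.Agent.Y699.exists_val
    have hz0 : z ≠ 0 := by
      intro h0
      have := hz B hB
      rw [h0, map_zero] at this
      exact zero_ne_one this
    obtain ⟨m, hm, hm'⟩ := Pool.Agent.Y715.Tu.int_of_val (u := z) fun B hB => (hz B hB).le
    obtain ⟨n, hn, hn'⟩ := Pool.Agent.Y715.Tu.int_of_val (u := z⁻¹) fun B hB => by
      rw [map_inv₀, hz B hB, inv_one]
    refine ⟨hmin, hf, hs, LL (cls_pf h), cT (curve D), isL h, ?_, isTam _, ?_, hΩ0, ?_, hz0,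
      m * n, hm.mul hn, ?_, ?_⟩
    · intro h0
      apply hz0
      rw [hzd, h0]
      unfold anOrder
      rw [zero_mul, zero_div]
    · rw [htam]
      positivity
    · rw [htor']
      have := ht.pos
      omega
    · have e : ((m * n : ℤ) : ℂ) * z = ((n : ℤ) : ℂ) * ((m : ℂ) * z) := by push_cast; ring
      rw [e]
      exact (isIntegral_algebraMap (x := n)).mul hm'
    · have e : ((m * n : ℤ) : ℂ) * z⁻¹ = ((m : ℤ) : ℂ) * ((n : ℂ) * z⁻¹) := by push_cast; ring
      rw [e]
      exact (isIntegral_algebraMap (x := m)).mul hn'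
  · refine (rz_iff h).1 ⟨hT.2.1, fun x hx => hT.2.2.1 1 x ?_⟩
    rwa [pow_one]

theorem two_kt {D : ℕ} (h : Class D) :
    TwoPart (curve D) ↔ Pool.Agent.E8helper21.QT.Kt D.primeFactors :=
  (criterion h).2.2.2.symm.trans (Pool.Agent.E8helper21.QT.Kt_indec h).symm

end proof

/-- **Main theorem.** The formula modulo two holds for all the quartic twists `y² = x³ - D x`, `D` in the
class, and the 2-part of the formula holds, with `Ш[2^∞] = 0`, if and only if `D` is indecomposable, if and
only if `E_D(ℚ)` is finite and `Ш(E_D/ℚ)[2] = 0`. The proportion of these `D` in the class tends to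
`cc = ∏ (1 - 2^(-(2i+1)))`, between `0.4194` and `0.4195`, and at least `a X / √(log X)` of the
`D ≤ X` are of this kind. -/
theorem result :
    (∀ D : ℕ, Class D → Criterion D) ∧
    Tendsto (fun X : ℕ => (num (fun D => TwoPart (curve D)) X : ℝ) / (num (fun _ => True) X : ℝ))
      atTop (𝓝 cc) ∧
    0.4194 < cc ∧ cc < 0.4195 ∧
    ∃ (a : ℝ) (X₀ : ℕ), 0 < a ∧ ∀ X : ℕ, X₀ ≤ X →
      a * X / Real.sqrt (Real.log X) ≤ (num (fun D => TwoPart (curve D)) X : ℝ) := by
  have hc := Pool.Agent.Y948.CQ.t_C2.2.2.2
  obtain ⟨h1, h2⟩ := Pool.Agent.E8helper18.QP.final (fun D => TwoPart (curve D))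
    fun D hD => two_kt hD
  refine ⟨fun D h => criterion h, ?_, hc.1, hc.2, h2⟩
  have e : ∀ X, num (fun _ => True) X =
      ((Finset.Icc 1 X).filter fun D => Pool.Agent.E8helper18.QP.CD D).card := by
    intro X
    unfold num
    simp only [and_true]
    rfl
  simp only [e]
  exact h1

end Pool.Agent.Results.MP_92892c_nt.TwoPartQuarticTwistsH21
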