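import Pool.Agent.E8helper21.Q2.AllP

/-!
# The 2-part of the leading-term formula over `ℚ` for all the curves `y² = x³ + 2 D x`

`E_D : y² = x³ + 2 D x`, where `D ≥ 1` is squarefree and all prime factors of `D` are `1` modulo `4`; there
is no other condition on `D`. Let `z = (L(E_D, 1) / Ω) / (∏ c_p / #E_D(ℚ)_tors²)`, the quotient of the
analytic constant in rank zero by the algebraic one without `#Ш(E_D/ℚ)`. With no hypothesis on the rank or
on `Ш` we prove for all these `D`:
* the equation is a global minimal one, `L(E_D, s)` is entire, `∏ c_p = 2^(n + 1)`, `n` the number of the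
  prime factors of `D`, and the order of the torsion group is twice an odd number;
* `z` is integral at all the primes above two, and `z` is a unit at any given prime above two if and only
  if `E_D(ℚ)` is finite and `Ш(E_D/ℚ)[2] = 0`: the formula modulo two;
* this is the case if and only if there is no factorization `D = d e`, `d > 1`, such that `d` is a square
  modulo all the prime factors of `e` and `2 e` is a square modulo all the prime factors of `d`;
* in this case the 2-part of the formula holds: `L(E_D, 1) ≠ 0`, `E_D(ℚ)` is finite,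
  `Ш(E_D/ℚ)[2^∞] = 0` and `z`, `1 / z` are integral at the primes above two;
* the proportion of these `D` among all the `D ≤ X` of the class tends to
  `∏_{i ≥ 0} (1 - 2^(-(2i+1))) = 0.4194…` as `X → ∞`.

Proof: the central value is the limit of sums over the residues modulo `D` of the quartic character with
values in a Kronecker series of weight one and of conductor `8 i`, whose fourth power is
`(℘ + X₀)² + κ ℘'`; its values at the torsion points of odd order are not `2`-integral multiples of the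
period, but the sums over `± P` are (`Q2/Lim`, `Q2/Rec2`, `Q2/Rec3`). The sum over all the Gaussian divisors
of `D` gives a recursion, the solution of which modulo the prime above two is the number of the spanning
forests of the graph of the Gaussian prime factors with an even number of roots, weighted by the symbols
of two (`Q2/Rec4`). For rational `D` this is the determinant of the Laplacian of the graph of the rational
prime factors plus the diagonal matrix of the symbols `[2/p]`. The other side is a descent by the two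
isogenies of degree two. Pieces of the proof: `E8helper33`, `41`, `52`, `55`, `56`, `64`, `75`, `77`, `79`,
`85`, `89`, `95`, `97` (folders `Q2`, `QC`) and `E8helper18/QP`.
-/

set_option autoImplicit false

open WeierstrassCurve MeasureTheory Filter Topology

namespace Pool.Agent.Results.MP_92892c_nt.TwoPartTwiceTwistsH21

open scoped Classical

open Pool.Agent.TH841.SH.D (Sha)

/-- `E_D : y² = x³ + 2 D x` -/
def curve (D : ℕ) : WeierstrassCurve ℤ := ⟨0, 0, 0, 2 * (D : ℤ), 0⟩

/-- The class: `D` is squarefree, and all its prime factors are `1` modulo `4`. -/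
def Class (D : ℕ) : Prop := Squarefree D ∧ ∀ p : ℕ, p.Prime → p ∣ D → p % 4 = 1

/-- The curve given by the equation of `W` over the ring `R`. -/
abbrev base (W : WeierstrassCurve ℤ) (R : Type) [CommRing R] : WeierstrassCurve R :=
  W.map (Int.castRingHom R)

/-- `W` is a global minimal equation: `Δ ≠ 0` and `|Δ|` is minimal among the integral equations of the
same curve over `ℚ`. -/
def Minimal (W : WeierstrassCurve ℤ) : Prop :=
  W.Δ ≠ 0 ∧ ∀ (W' : WeierstrassCurve ℤ) (C : VariableChange ℚ), C • base W ℚ = base W' ℚ →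
    |W.Δ| ≤ |W'.Δ|

/-- The number of the affine points modulo `p`. -/
noncomputable def pts (W : WeierstrassCurve ℤ) (p : ℕ) : ℕ :=
  Nat.card {P : ZMod p × ZMod p // (base W (ZMod p)).toAffine.Equation P.1 P.2}

/-- `a_p = p + 1 - #W(𝔽_p)`, the points counted with the point at infinity. -/
noncomputable def a (W : WeierstrassCurve ℤ) (p : ℕ) : ℤ := p - pts W p

/-- `L` is the L-function of the minimal equation `W`: it is entire, and for `Re s > 3/2` it is given by
the Euler product with the factors `(1 - a_p p^(-s) + p^(1 - 2 s))⁻¹` if `p` does not divide `Δ` and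
`(1 - a_p p^(-s))⁻¹` otherwise. -/
def IsL (W : WeierstrassCurve ℤ) (L : ℂ → ℂ) : Prop :=
  Differentiable ℂ L ∧ ∀ s : ℂ, 3 / 2 < s.re →
    HasProd (fun p : Nat.Primes => (1 - (a W p : ℂ) * ((p : ℕ) : ℂ) ^ (-s) +
      (if ((p : ℕ) : ℤ) ∣ W.Δ then 0 else ((p : ℕ) : ℂ) ^ (1 - 2 * s)))⁻¹) (L s)

/-- The point `P` of `W` over `ℚ_p` reduces to a singular point of the curve modulo `p`: the coordinates
are integral and both partial derivatives of `y² + a₁ x y + a₃ y - x³ - a₂ x² - a₄ x - a₆` are in the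
maximal ideal. -/
def SingularReduction (W : WeierstrassCurve ℤ) (p : ℕ) [Fact p.Prime]
    (P : (base W ℚ_[p]).toAffine.Point) : Prop :=
  ∃ x y h, P = Affine.Point.some x y h ∧ ‖x‖ ≤ 1 ∧ ‖y‖ ≤ 1 ∧
    ‖W.a₁ * y - (3 * x ^ 2 + 2 * W.a₂ * x + W.a₄)‖ < 1 ∧ ‖2 * y + W.a₁ * x + W.a₃‖ < 1

/-- `c p` is the Tamagawa number `[W(ℚ_p) : W⁰(ℚ_p)]` for all primes `p`, where `W⁰(ℚ_p)` is the subgroup
of the points which do not have singular reduction; it is `1` if `p` does not divide `Δ`. -/
def IsTamagawa (W : WeierstrassCurve ℤ) (c : ℕ → ℕ) : Prop :=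
  ∀ (p : ℕ) [Fact p.Prime], (∃ H : AddSubgroup (base W ℚ_[p]).toAffine.Point,
    (∀ P, P ∈ H ↔ ¬ SingularReduction W p P) ∧ H.index = c p) ∧ (¬ (p : ℤ) ∣ W.Δ → c p = 1)

/-- The product of the Tamagawa numbers. -/
noncomputable def Tam (W : WeierstrassCurve ℤ) (c : ℕ → ℕ) : ℕ := ∏ p ∈ W.Δ.natAbs.primeFactors, c p

/-- `4 x³ + b₂ x² + 2 b₄ x + b₆ = (2 y + a₁ x + a₃)²`. -/
def cubic (W : WeierstrassCurve ℤ) (x : ℝ) : ℝ := 4 * x ^ 3 + W.b₂ * x ^ 2 + 2 * W.b₄ * x + W.b₆

/-- `Ω = ∫_{W(ℝ)} |ω|` with `ω = dx / (2 y + a₁ x + a₃)`, as an integral over `x`: two real points lie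
over each `x` with `cubic x > 0`. -/
noncomputable def Omega (W : WeierstrassCurve ℤ) : ℝ :=
  2 * ∫ x in {x : ℝ | 0 < cubic W x}, 1 / √(cubic W x)

/-- The order of the torsion subgroup of `W(ℚ)`. -/
noncomputable def torsOrder (W : WeierstrassCurve ℤ) : ℕ :=
  Nat.card (AddCommGroup.torsion (base W ℚ).toAffine.Point)

/-- The order of the Tate-Shafarevich group predicted by the formula in rank zero, for the value `l` of
the L-function at `s = 1` and the Tamagawa numbers `c`: `l #W(ℚ)_tors² / (Ω ∏ c_p)`. -/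
noncomputable def anOrder (W : WeierstrassCurve ℤ) (l : ℂ) (c : ℕ → ℕ) : ℂ :=
  l * (torsOrder W : ℂ) ^ 2 / ((Omega W : ℝ) * (Tam W c : ℂ))

/-- `z` is not zero, and `z` and `1 / z` are integral at all the primes above two: up to odd integers
they are algebraic integers. -/
def TwoUnit (z : ℂ) : Prop :=
  z ≠ 0 ∧ ∃ m : ℤ, Odd m ∧ IsIntegral ℤ ((m : ℂ) * z) ∧ IsIntegral ℤ ((m : ℂ) * z⁻¹)

/-- The 2-part of the leading-term formula for `W` over `ℚ`, in the case that the predicted order of `Ш`
is a unit at two: `W` is minimal, `L(W, s)` is entire, `L(W, 1) ≠ 0`, `W(ℚ)` is finite, the 2-primary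
part of `Ш(W/ℚ)` is zero, and the predicted order of `Ш` is a unit at the primes above two. -/
def TwoPart (W : WeierstrassCurve ℤ) : Prop :=
  Minimal W ∧ Finite (base W ℚ).toAffine.Point ∧
  (∀ (n : ℕ) (x : Sha (base W ℚ)), 2 ^ n • x = 0 → x = 0) ∧
  ∃ (L : ℂ → ℂ) (c : ℕ → ℕ), IsL W L ∧ L 1 ≠ 0 ∧ IsTamagawa W c ∧ 0 < Tam W c ∧
    0 < Omega W ∧ 0 < torsOrder W ∧ TwoUnit (anOrder W (L 1) c)

/-- `E_D(ℚ)` is finite and `Ш(E_D/ℚ)` has no element of order two. -/
def RankZeroShaTwo (D : ℕ) : Prop :=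
  Finite (base (curve D) ℚ).toAffine.Point ∧ ∀ x : Sha (base (curve D) ℚ), 2 • x = 0 → x = 0

/-- If `D = d e`, `d` is a square modulo all the prime factors of `e` and `2 e` is a square modulo all the
prime factors of `d`, then `d = 1`. -/
def Indecomposable (D : ℕ) : Prop := ∀ d e : ℕ, D = d * e →
  (∀ p : ℕ, p.Prime → p ∣ e → IsSquare (d : ZMod p)) →
  (∀ p : ℕ, p.Prime → p ∣ d → IsSquare ((2 * e : ℕ) : ZMod p)) → d = 1

/-- The statement for all `D` of the class: the equation is minimal, there are the entire L-function `L`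
and the Tamagawa numbers `c`, `∏ c_p = 2^(n + 1)`, the order of the torsion group is twice an odd number,
and for the predicted order `z` of `Ш` and every valuation `v` of `ℂ` above two `v z ≤ 1`, with equality
if and only if `E_D(ℚ)` is finite and `Ш(E_D/ℚ)[2] = 0`; this is the case if and only if `D` is
indecomposable, and if and only if the 2-part of the formula holds with `z` a unit. -/
def Criterion (D : ℕ) : Prop :=
  Minimal (curve D) ∧
  (∃ (L : ℂ → ℂ) (c : ℕ → ℕ), IsL (curve D) L ∧ IsTamagawa (curve D) c ∧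
    Tam (curve D) c = 2 ^ (D.primeFactors.card + 1) ∧
    (∃ t : ℕ, Odd t ∧ torsOrder (curve D) = 2 * t) ∧ 0 < Omega (curve D) ∧
    ∀ (Γ : Type) [LinearOrderedCommGroupWithZero Γ] (v : Valuation ℂ Γ), v 2 < 1 →
      v (anOrder (curve D) (L 1) c) ≤ 1 ∧
      (v (anOrder (curve D) (L 1) c) = 1 ↔ RankZeroShaTwo D)) ∧
  (RankZeroShaTwo D ↔ Indecomposable D) ∧
  (Indecomposable D ↔ TwoPart (curve D))

/-- The number of the `D ≤ X` of the class with the property `Q`. -/
noncomputable def num (Q : ℕ → Prop) (X : ℕ) : ℕ :=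
  ((Finset.Icc 1 X).filter fun D => Class D ∧ Q D).card

/-- The constant `0.4194…`. -/
noncomputable def cc : ℝ := ∏' i : ℕ, (1 - (1 / 2 : ℝ) ^ (2 * i + 1))

section proof

open Pool.Agent.E8helper21.Q2 (C2 LL2 cls_pf nD_pf Indec EQ' t_ALL K2)
open Pool.Agent.E8helper21.QT (cv)

lemma curve_eq (D : ℕ) : curve D = cv (-2 * (D : ℤ)) := by
  unfold curve cv
  congr 1
  ring

lemma class_iff (D : ℕ) : Class D ↔ C2 D := Iff.rfl

lemma indec_iff (D : ℕ) : Indecomposable D ↔ Indec D := Iff.rfl

/-- the Tamagawa numbers -/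
noncomputable def cT (W : WeierstrassCurve ℤ) (p : ℕ) : ℕ :=
  if h : p.Prime then (haveI := Fact.mk h; Pool.Agent.Y700.tam W p) else 1

lemma cT_eq (W : WeierstrassCurve ℤ) (p : ℕ) [hp : Fact p.Prime] :
    cT W p = Pool.Agent.Y700.tam W p := by
  unfold cT
  rw [dif_pos hp.out]

lemma isTam (W : WeierstrassCurve ℤ) : IsTamagawa W (cT W) := by
  intro p hp
  refine ⟨⟨Pool.Agent.Y700.E0 W p, fun P => ?_, by rw [cT_eq]; rfl⟩, fun h => ?_⟩
  · rw [Pool.Agent.Y809.BSD14.t_E0 W p P]
    constructor
    · rintro h ⟨x, y, h1, rfl, h2⟩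
      exact h x y h1 rfl h2
    · intro h x y h1 h2 h3
      exact h ⟨x, y, h1, h2, h3⟩
  · rw [cT_eq]
    exact Pool.Agent.Y809.BSD14.t_TGOOD W p h

lemma isL {D : ℕ} (h : Class D) : IsL (curve D) (LL2 (cls_pf h)) := by
  obtain ⟨h1, h2⟩ := t_ALL.EU D.primeFactors (cls_pf h)
  refine ⟨h1, fun s hs => ?_⟩
  have h3 := h2 s hs
  rw [nD_pf h] at h3
  rw [curve_eq]
  exact h3

lemma rz_iff {D : ℕ} (h : Class D) : RankZeroShaTwo D ↔ Indecomposable D := by
  unfold RankZeroShaTwo
  rw [curve_eq]
  exact Pool.Agent.E8helper21.Q2.sel_iff t_ALL h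

theorem criterion {D : ℕ} (h : Class D) : Criterion D := by
  have hmin : Minimal (curve D) := by
    rw [curve_eq]
    refine t_ALL.MIN _ ?_
    have h2 : Squarefree (((2 * D : ℕ)) : ℤ) := by
      rw [Int.squarefree_natCast, Nat.squarefree_mul_iff]
      refine ⟨?_, Nat.prime_two.squarefree, h.1⟩
      have := Pool.Agent.E8helper21.Q2.D_odd h
      rw [Nat.coprime_two_left, Nat.odd_iff]
      exact this
    have e : (-2 * (D : ℤ)) = -(((2 * D : ℕ)) : ℤ) := by push_cast; ring
    rw [e]
    exact fun x hx => h2 x ((dvd_neg).1 hx)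
  obtain ⟨A, hA, hint⟩ := Pool.Agent.E8helper21.Q2.period t_ALL h
  have hΩ : Omega (curve D) = 2 * A := by
    rw [curve_eq]
    unfold Omega
    congr 1
  obtain ⟨t, ht, htor⟩ := Pool.Agent.E8helper21.Q2.tors h
  have htor' : torsOrder (curve D) = 2 * t := by
    rw [curve_eq]
    exact htor
  have htam : Tam (curve D) (cT (curve D)) = 2 ^ (D.primeFactors.card + 1) := by
    rw [curve_eq]
    exact Pool.Agent.E8helper21.Q2.tam_all t_ALL h _ fun p _ => cT_eq _ p
  have hΩ0 : 0 < Omega (curve D) := by rw [hΩ]; linarith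
  have hval : ∀ (Γ : Type) [LinearOrderedCommGroupWithZero Γ] (v : Valuation ℂ Γ), v 2 < 1 →
      v (anOrder (curve D) (LL2 (cls_pf h) 1) (cT (curve D))) ≤ 1 ∧
      (v (anOrder (curve D) (LL2 (cls_pf h) 1) (cT (curve D))) = 1 ↔ Indecomposable D) := by
    intro Γ _ v hv
    have h1 := Pool.Agent.E8helper21.Q2.value t_ALL h hA hint ht v hv
    unfold anOrder
    rw [hΩ, htor', htam]
    exact h1
  refine ⟨hmin, ⟨LL2 (cls_pf h), cT (curve D), isL h, isTam _, htam, ⟨t, ht, htor'⟩, hΩ0,
    fun Γ _ v hv => ?_⟩, rz_iff h, fun hI => ?_, fun hT => ?_⟩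
  · rw [rz_iff h]
    exact hval Γ v hv
  · obtain ⟨hf, hs⟩ := (Pool.Agent.E8helper21.Q2.alg_fin t_ALL h hI : _)
    have hz : ∀ B : ValuationSubring ℂ, B.valuation 2 < 1 →
        B.valuation (anOrder (curve D) (LL2 (cls_pf h) 1) (cT (curve D))) = 1 :=
      fun B hB => ((hval _ B.valuation hB).2).2 hI
    set z := anOrder (curve D) (LL2 (cls_pf h) 1) (cT (curve D)) with hzd
    obtain ⟨B, hB⟩ := Pool.Agent.Y699.exists_val
    have hz0 : z ≠ 0 := by
      intro h0
      have := hz B hB
      rw [h0, map_zero] at this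
      exact zero_ne_one this
    obtain ⟨m, hm, hm'⟩ := Pool.Agent.Y715.Tu.int_of_val (u := z) fun B hB => (hz B hB).le
    obtain ⟨n, hn, hn'⟩ := Pool.Agent.Y715.Tu.int_of_val (u := z⁻¹) fun B hB => by
      rw [map_inv₀, hz B hB, inv_one]
    have hf' : Finite (base (curve D) ℚ).toAffine.Point := by rw [curve_eq]; exact hf
    have hs' : ∀ (n : ℕ) (x : Sha (base (curve D) ℚ)), 2 ^ n • x = 0 → x = 0 := by
      rw [curve_eq]; exact hs
    refine ⟨hmin, hf', hs', LL2 (cls_pf h), cT (curve D), isL h, ?_, isTam _, ?_, hΩ0, ?_, hz0,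
      m * n, hm.mul hn, ?_, ?_⟩
    · intro h0
      apply hz0
      rw [hzd, h0]
      unfold anOrder
      rw [zero_mul, zero_div]
    · rw [htam]
      positivity
    · rw [htor']
      have := ht.pos
      omega
    · have e : ((m * n : ℤ) : ℂ) * z = ((n : ℤ) : ℂ) * ((m : ℂ) * z) := by push_cast; ring
      rw [e]
      exact (isIntegral_algebraMap (x := n)).mul hm'
    · have e : ((m * n : ℤ) : ℂ) * z⁻¹ = ((m : ℤ) : ℂ) * ((n : ℂ) * z⁻¹) := by push_cast; ring
      rw [e]
      exact (isIntegral_algebraMap (x := m)).mul hn'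
  · refine (rz_iff h).1 ⟨hT.2.1, fun x hx => hT.2.2.1 1 x ?_⟩
    rwa [pow_one]

theorem two_k2 {D : ℕ} (h : Class D) : TwoPart (curve D) ↔ K2 D.primeFactors :=
  (criterion h).2.2.2.symm.trans (Pool.Agent.E8helper21.Q2.K2_indec t_ALL.K2S h).symm

end proof

/-- **Main theorem.** The formula modulo two holds for all the curves `y² = x³ + 2 D x`, `D` in the
class, and the 2-part of the formula holds, with `Ш[2^∞] = 0`, if and only if `D` is indecomposable, if and
only if `E_D(ℚ)` is finite and `Ш(E_D/ℚ)[2] = 0`. The proportion of these `D` in the class tends to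
`cc = ∏ (1 - 2^(-(2i+1)))`, between `0.4194` and `0.4195`. -/
theorem result :
    (∀ D : ℕ, Class D → Criterion D) ∧
    Tendsto (fun X : ℕ => (num (fun D => TwoPart (curve D)) X : ℝ) / (num (fun _ => True) X : ℝ))
      atTop (𝓝 cc) ∧
    0.4194 < cc ∧ cc < 0.4195 := by
  have hc := Pool.Agent.Y948.CQ.t_C2.2.2.2
  have h1 := Pool.Agent.E8helper21.Q2.t_CNT' (fun D => TwoPart (curve D)) fun D hD => two_k2 hD
  refine ⟨fun D h => criterion h, ?_, hc.1, hc.2⟩
  have e : ∀ X, num (fun _ => True) X =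
      ((Finset.Icc 1 X).filter fun D => Pool.Agent.E8helper21.Q2.C2 D).card := by
    intro X
    unfold num
    simp only [and_true]
    rfl
  simp only [e]
  exact h1

end Pool.Agent.Results.MP_92892c_nt.TwoPartTwiceTwistsH21
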